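import Mathlib
import Pool.Agent.Helper73.DC.Defs
import Pool.Agent.Helper14.DC.Newton

/-! From a determinant (over `K[e]`, equal to `e^k (f + e g)`) to a large subspace `W` over an
extension field with `f` vanishing on `x + W`. -/

namespace Pool.Agent.Helper14.DC

open Finset

section

variable {F : Type*} [Field F]

/-- The kernel-vector step over the domain `F⟦X⟧`, in abstract form: `L b` are matrices depending
linearly on `b`; the set of reductions of solutions of `L w v = 0` has codimension at most `m`. -/
theorem codim_le (S : Type*) [Fintype S] (m : ℕ)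
    (A : S → Matrix (Fin m) (Fin m) (PowerSeries F)) (v : Fin m → PowerSeries F)
    (W : Submodule F (S → F))
    (hW : ∀ w : S → PowerSeries F, (∑ a, w a • A a).mulVec v = 0 →
      (fun a => PowerSeries.constantCoeff (w a)) ∈ W) :
    Fintype.card S ≤ Module.finrank F W + m := by
  classical
  by_contra hlt
  push Not at hlt
  obtain ⟨C, hC⟩ := Submodule.exists_isCompl W
  have hcard : Module.finrank F W + Module.finrank F C = Fintype.card S := by
    rw [Submodule.finrank_add_eq_of_isCompl hC, Module.finrank_fintype_fun_eq_card]
  set d := Module.finrank F C with hd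
  have hdm : m < d := by omega
  let c : Module.Basis (Fin d) F C := Module.finBasis F C
  -- the linear map `b ↦ A_lin (∑ b_i c_i) v`
  let T : (Fin d → PowerSeries F) →ₗ[PowerSeries F] (Fin m → PowerSeries F) :=
    { toFun := fun b => (∑ a, (∑ i, b i * PowerSeries.C ((c i : S → F) a)) • A a).mulVec v
      map_add' := by
        intro b b'
        rw [← Matrix.add_mulVec, ← Finset.sum_add_distrib]
        congr 1
        refine Finset.sum_congr rfl fun a _ => ?_
        rw [← add_smul, ← Finset.sum_add_distrib]
        congr 1
        refine Finset.sum_congr rfl fun i _ => ?_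
        rw [Pi.add_apply, add_mul]
      map_smul' := by
        intro r b
        rw [RingHom.id_apply, ← Matrix.smul_mulVec, Finset.smul_sum]
        congr 1
        refine Finset.sum_congr rfl fun a _ => ?_
        rw [smul_smul, Finset.mul_sum]
        congr 1
        refine Finset.sum_congr rfl fun i _ => ?_
        rw [Pi.smul_apply, smul_eq_mul, mul_assoc] }
  have hT : ¬ Function.Injective T := by
    intro hinj
    have := card_le_of_injective (PowerSeries F) T hinj
    simp at this
    omega
  have hker : ∃ b : Fin d → PowerSeries F, b ≠ 0 ∧ T b = 0 := by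
    by_contra hcon
    push Not at hcon
    apply hT
    rw [injective_iff_map_eq_zero]
    intro b hb
    by_contra hb0
    exact hcon b hb0 hb
  obtain ⟨b, hb0, hb⟩ := hker
  -- divide by the power of `X`
  have hex : ∃ n : ℕ, ∃ i, PowerSeries.coeff n (b i) ≠ 0 := by
    by_contra hcon
    push Not at hcon
    apply hb0
    funext i
    ext n
    simpa using hcon n i
  let n := Nat.find hex
  obtain ⟨i₀, hi₀⟩ := Nat.find_spec hex
  have hmin : ∀ k < n, ∀ i, PowerSeries.coeff k (b i) = 0 := by
    intro k hk i
    by_contra hne
    exact Nat.find_min hex hk ⟨i, hne⟩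
  have hdiv : ∀ i, ∃ b', b i = PowerSeries.X ^ n * b' := by
    intro i
    exact (PowerSeries.X_pow_dvd_iff.mpr fun k hk => hmin k hk i)
  choose b' hb' using hdiv
  have hb'0 : PowerSeries.constantCoeff (b' i₀) ≠ 0 := by
    intro h0
    apply hi₀
    change PowerSeries.coeff n (b i₀) = 0
    have h1 := PowerSeries.coeff_X_pow_mul (b' i₀) n 0
    rw [zero_add] at h1
    rw [hb', h1]
    simpa using h0
  have hTb' : T b' = 0 := by
    have h1 : b = (PowerSeries.X ^ n : PowerSeries F) • b' := by
      funext i
      rw [hb' i, Pi.smul_apply, smul_eq_mul]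
    rw [h1, map_smul] at hb
    exact (smul_eq_zero.mp hb).resolve_left (pow_ne_zero _ PowerSeries.X_ne_zero)
  have hmem := hW _ hTb'
  have hval : (fun a => PowerSeries.constantCoeff (∑ i, b' i * PowerSeries.C ((c i : S → F) a))) =
      ((∑ i, PowerSeries.constantCoeff (b' i) • c i : C) : S → F) := by
    funext a
    simp [map_sum, map_mul]
  rw [hval] at hmem
  have hinter : ((∑ i, PowerSeries.constantCoeff (b' i) • c i : C) : S → F) = 0 := by
    have : ((∑ i, PowerSeries.constantCoeff (b' i) • c i : C) : S → F) ∈ W ⊓ C :=
      ⟨hmem, Subtype.property _⟩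
    rwa [hC.inf_eq_bot, Submodule.mem_bot] at this
  have hsum : (∑ i, PowerSeries.constantCoeff (b' i) • c i : C) = 0 := by
    exact Subtype.ext hinter
  have := Fintype.linearIndependent_iff.mp c.linearIndependent _ hsum i₀
  exact hb'0 this

/-- If `B v = 0` with `v ≠ 0` over a domain then `det B = 0`. -/
theorem det_eq_zero_of_mulVec {R : Type*} [CommRing R] [IsDomain R] {m : ℕ}
    (B : Matrix (Fin m) (Fin m) R) (v : Fin m → R) (hv : v ≠ 0) (h : B.mulVec v = 0) :
    B.det = 0 :=
  Matrix.exists_mulVec_eq_zero_iff.mp ⟨v, hv, h⟩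

end

/-- The reduction map `K[e] → F⟦X⟧`. -/
noncomputable def toPS (K F : Type*) [Field K] [Field F] [Algebra K F] :
    Polynomial K →+* PowerSeries F :=
  (Polynomial.coeToPowerSeries.ringHom).comp (Polynomial.mapRingHom (algebraMap K F))

theorem toPS_C (K F : Type*) [Field K] [Field F] [Algebra K F] (c : K) :
    toPS K F (Polynomial.C c) = PowerSeries.C (algebraMap K F c) := by
  simp [toPS]

theorem toPS_X (K F : Type*) [Field K] [Field F] [Algebra K F] :
    toPS K F Polynomial.X = PowerSeries.X := by
  simp [toPS]

theorem constantCoeff_eval₂ {K F : Type*} [Field K] [Field F] [Algebra K F] {S : Type*}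
    (z : S → PowerSeries F) (f : MvPolynomial S K) (g : MvPolynomial S (Polynomial K)) :
    PowerSeries.constantCoeff (MvPolynomial.eval₂ (toPS K F) z
      (MvPolynomial.map Polynomial.C f + MvPolynomial.C Polynomial.X * g)) =
    MvPolynomial.aeval (fun s => PowerSeries.constantCoeff (z s)) f := by
  rw [MvPolynomial.eval₂_add, MvPolynomial.eval₂_mul, MvPolynomial.eval₂_C, toPS_X, map_add,
    map_mul, PowerSeries.constantCoeff_X, zero_mul, add_zero, MvPolynomial.eval₂_map,
    MvPolynomial.eval₂_comp_left, MvPolynomial.aeval_def]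
  congr 1
  ext c
  simp [toPS_C]

/-- The one-variable polynomial `T ↦ q (z + T 1_a)`. -/
noncomputable def line {A R : Type*} [CommRing A] [CommRing R] {S : Type*} [DecidableEq S]
    (φ : A →+* R) (z : S → R) (a : S) (q : MvPolynomial S A) : Polynomial R :=
  MvPolynomial.eval₂ (Polynomial.C.comp φ)
    (fun s => Polynomial.C (z s) + if s = a then Polynomial.X else 0) q

theorem eval_line {A R : Type*} [CommRing A] [CommRing R] {S : Type*} [DecidableEq S]
    (φ : A →+* R) (z : S → R) (a : S) (q : MvPolynomial S A) (r : R) :
    (line φ z a q).eval r = MvPolynomial.eval₂ φ (fun s => z s + if s = a then r else 0) q := by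
  unfold line
  rw [← Polynomial.coe_evalRingHom, MvPolynomial.eval₂_comp_left]
  congr 1
  · ext c
    simp
  · funext s
    by_cases hs : s = a <;> simp [hs]

theorem derivative_line {A R : Type*} [CommRing A] [CommRing R] {S : Type*} [DecidableEq S]
    (φ : A →+* R) (z : S → R) (a : S) (q : MvPolynomial S A) :
    (line φ z a q).derivative = line φ z a (MvPolynomial.pderiv a q) := by
  induction q using MvPolynomial.induction_on with
  | C c => simp [line]
  | add p q hp hq =>
    have h1 : line φ z a (p + q) = line φ z a p + line φ z a q := by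
      simp [line]
    have h2 : line φ z a (MvPolynomial.pderiv a p + MvPolynomial.pderiv a q) =
        line φ z a (MvPolynomial.pderiv a p) + line φ z a (MvPolynomial.pderiv a q) := by
      simp [line]
    rw [h1, map_add, map_add, h2, hp, hq]
  | mul_X p i hp =>
    have h1 : ∀ p q : MvPolynomial S A, line φ z a (p * q) = line φ z a p * line φ z a q := by
      intro p q
      simp [line]
    have h2 : ∀ p q : MvPolynomial S A, line φ z a (p + q) = line φ z a p + line φ z a q := by
      intro p q
      simp [line]
    rw [h1, Polynomial.derivative_mul, hp, Derivation.leibniz, h2, smul_eq_mul, smul_eq_mul, h1, h1,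
      add_comm, mul_comm (line φ z a (MvPolynomial.X i))]
    congr 2
    rw [MvPolynomial.pderiv_X]
    by_cases hi : i = a
    · subst hi
      simp [line]
    · simp [line, hi]

end Pool.Agent.Helper14.DC

namespace Pool.Agent.Helper73.DC

open Finset Pool.Agent.Helper14.DC

/-- CORE C: section 1 of the proof. -/
theorem exists_subspace_of_det {K : Type*} [Field K] {F : Type*} [Field F] [Algebra K F]
    {S : Type*} [Fintype S] [DecidableEq S] (f : MvPolynomial S K)
    (m k : ℕ) (A₀ : Matrix (Fin m) (Fin m) (Polynomial K))
    (A : S → Matrix (Fin m) (Fin m) (Polynomial K))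
    (g : MvPolynomial S (Polynomial K))
    (hdet : (affMat A₀ A).det = MvPolynomial.C (Polynomial.X ^ k) *
        (MvPolynomial.map Polynomial.C f + MvPolynomial.C Polynomial.X * g))
    (x : S → F) (hx : MvPolynomial.aeval x f = 0)
    (a : S) (ha : MvPolynomial.aeval x (MvPolynomial.pderiv a f) ≠ 0) :
    ∃ W : Submodule F (S → F), Fintype.card S ≤ Module.finrank F W + m ∧
      ∀ w ∈ W, MvPolynomial.aeval (x + w) f = 0 := by
  classical
  let φ := toPS K F
  -- evaluation of the determinant at a point of `F⟦X⟧^S`
  let B : (S → PowerSeries F) → Matrix (Fin m) (Fin m) (PowerSeries F) := fun z =>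
    A₀.map φ + ∑ s, z s • (A s).map φ
  let ff : MvPolynomial S (Polynomial K) :=
    MvPolynomial.map Polynomial.C f + MvPolynomial.C Polynomial.X * g
  have hB : ∀ z : S → PowerSeries F,
      (B z).det = PowerSeries.X ^ k * MvPolynomial.eval₂ φ z ff := by
    intro z
    have h1 : (B z).det = MvPolynomial.eval₂Hom φ z (affMat A₀ A).det := by
      rw [RingHom.map_det]
      congr 1
      ext i j
      simp [B, affMat, Matrix.sum_apply, mul_comm]
    rw [h1, hdet, map_mul]
    congr 1
    simp [φ, toPS_X]
  -- Newton
  have hroot : ∃ r : PowerSeries F, (line φ (fun s => PowerSeries.C (x s)) a ff).eval r = 0 ∧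
      PowerSeries.constantCoeff r = 0 := by
    apply exists_root_powerSeries
    · rw [eval_line, constantCoeff_eval₂]
      simpa using hx
    · rw [derivative_line, eval_line]
      have h2 : MvPolynomial.pderiv a ff = MvPolynomial.map Polynomial.C (MvPolynomial.pderiv a f) +
          MvPolynomial.C Polynomial.X * MvPolynomial.pderiv a g := by
        simp [ff, MvPolynomial.pderiv_map]
      rw [h2, constantCoeff_eval₂]
      simpa using ha
  obtain ⟨r, hr, hr0⟩ := hroot
  rw [eval_line] at hr
  set z : S → PowerSeries F := fun s => PowerSeries.C (x s) + if s = a then r else 0 with hz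
  have hzc : ∀ s, PowerSeries.constantCoeff (z s) = x s := by
    intro s
    by_cases hs : s = a <;> simp [hz, hs, hr0]
  have hdetz : (B z).det = 0 := by rw [hB, hr, mul_zero]
  obtain ⟨v, hv, hBv⟩ := Matrix.exists_mulVec_eq_zero_iff.mpr hdetz
  -- the subspace
  let W : Submodule F (S → F) :=
    { carrier := {w | ∃ w' : S → PowerSeries F,
        (∑ s, w' s • (A s).map φ).mulVec v = 0 ∧ ∀ s, PowerSeries.constantCoeff (w' s) = w s}
      zero_mem' := ⟨0, by simp, by simp⟩
      add_mem' := by
        rintro u w ⟨u', hu, hu'⟩ ⟨w', hw, hw'⟩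
        refine ⟨u' + w', ?_, fun s => by rw [Pi.add_apply, map_add, hu', hw', Pi.add_apply]⟩
        have : (∑ s, (u' + w') s • (A s).map φ) = (∑ s, u' s • (A s).map φ) +
            ∑ s, w' s • (A s).map φ := by
          rw [← Finset.sum_add_distrib]
          exact Finset.sum_congr rfl fun s _ => by rw [Pi.add_apply, add_smul]
        rw [this, Matrix.add_mulVec, hu, hw, add_zero]
      smul_mem' := by
        rintro c w ⟨w', hw, hw'⟩
        refine ⟨PowerSeries.C c • w', ?_, fun s => by
          rw [Pi.smul_apply, smul_eq_mul, map_mul, hw', PowerSeries.constantCoeff_C, Pi.smul_apply,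
            smul_eq_mul]⟩
        have : (∑ s, (PowerSeries.C c • w') s • (A s).map φ) =
            PowerSeries.C c • ∑ s, w' s • (A s).map φ := by
          rw [Finset.smul_sum]
          exact Finset.sum_congr rfl fun s _ => by rw [Pi.smul_apply, smul_assoc]
        rw [this, Matrix.smul_mulVec, hw, smul_zero] }
  refine ⟨W, ?_, ?_⟩
  · apply codim_le S m (fun s => (A s).map φ) v W
    intro w hw
    exact ⟨w, hw, fun s => rfl⟩
  · rintro w ⟨w', hw, hw'⟩
    have h3 : (B (z + w')).mulVec v = 0 := by
      have : B (z + w') = B z + ∑ s, w' s • (A s).map φ := by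
        simp only [B]
        rw [add_assoc, ← Finset.sum_add_distrib]
        congr 1
        exact Finset.sum_congr rfl fun s _ => by rw [Pi.add_apply, add_smul]
      rw [this, Matrix.add_mulVec, hBv, hw, add_zero]
    have h4 : (B (z + w')).det = 0 := det_eq_zero_of_mulVec _ v hv h3
    rw [hB] at h4
    have h5 : MvPolynomial.eval₂ φ (z + w') ff = 0 :=
      (mul_eq_zero.mp h4).resolve_left (pow_ne_zero _ PowerSeries.X_ne_zero)
    have h6 := congrArg PowerSeries.constantCoeff h5
    rw [constantCoeff_eval₂, map_zero] at h6
    rw [← h6]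
    congr 1
    congr 1
    funext s
    rw [Pi.add_apply, Pi.add_apply, map_add, hzc, hw']

end Pool.Agent.Helper73.DC
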