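import Mathlib

/-! Reduction of a linear space contained in a hypersurface from the fraction field of `F⟦X⟧`
to `F`. -/

namespace Pool.Agent.Helper14.DC

open Finset

/-- Divide a nonzero vector of power series by the largest possible power of `X`. -/
theorem exists_primitive {F : Type*} [Field F] {ι : Type*} (b : ι → PowerSeries F) (hb : b ≠ 0) :
    ∃ (n : ℕ) (b' : ι → PowerSeries F), (∀ i, b i = PowerSeries.X ^ n * b' i) ∧
      ∃ i, PowerSeries.constantCoeff (b' i) ≠ 0 := by
  classical
  have hex : ∃ n : ℕ, ∃ i, PowerSeries.coeff n (b i) ≠ 0 := by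
    by_contra hcon
    push Not at hcon
    apply hb
    funext i
    ext n
    simpa using hcon n i
  obtain ⟨i₀, hi₀⟩ := Nat.find_spec hex
  have hmin : ∀ k < Nat.find hex, ∀ i, PowerSeries.coeff k (b i) = 0 := by
    intro k hk i
    by_contra hne
    exact Nat.find_min hex hk ⟨i, hne⟩
  have hdiv : ∀ i, ∃ b', b i = PowerSeries.X ^ (Nat.find hex) * b' := by
    intro i
    exact (PowerSeries.X_pow_dvd_iff.mpr fun k hk => hmin k hk i)
  choose b' hb' using hdiv
  refine ⟨Nat.find hex, b', hb', i₀, ?_⟩
  intro h0
  apply hi₀
  have h1 := PowerSeries.coeff_X_pow_mul (b' i₀) (Nat.find hex) 0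
  rw [zero_add] at h1
  rw [hb', h1]
  simpa using h0

/-- Reductions of the integral points of a subspace over the fraction field of `F⟦X⟧` form a
subspace over `F` of at least the same dimension. -/
theorem exists_reduction_aux {K F : Type*} [Field K] [Field F] [Algebra K F]
    {S : Type*} [Fintype S] (f : MvPolynomial S K) (z : S → PowerSeries F)
    {L : Type*} [Field L] [Algebra (PowerSeries F) L] [IsFractionRing (PowerSeries F) L]
    (W : Submodule L (S → L))
    (hW : ∀ w ∈ W, MvPolynomial.eval₂
      ((algebraMap (PowerSeries F) L).comp (algebraMap K (PowerSeries F)))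
      (fun s => algebraMap (PowerSeries F) L (z s) + w s) f = 0) :
    ∃ W0 : Submodule F (S → F),
      Module.finrank L W ≤ Module.finrank F W0 ∧
      ∀ w ∈ W0, MvPolynomial.aeval (fun s => PowerSeries.constantCoeff (z s) + w s) f = 0 := by
  classical
  let φ : PowerSeries F →+* L := algebraMap (PowerSeries F) L
  have hφ : Function.Injective φ := IsFractionRing.injective (PowerSeries F) L
  let W0 : Submodule F (S → F) :=
    { carrier := {w | ∃ w' : S → PowerSeries F, (fun s => φ (w' s)) ∈ W ∧
        ∀ s, PowerSeries.constantCoeff (w' s) = w s}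
      zero_mem' := ⟨0, by
        have : (fun s : S => φ ((0 : S → PowerSeries F) s)) = 0 := by
          funext s
          simp
        rw [this]
        exact W.zero_mem, by simp⟩
      add_mem' := by
        rintro u w ⟨u', hu, hu'⟩ ⟨w', hw, hw'⟩
        refine ⟨u' + w', ?_, fun s => by rw [Pi.add_apply, map_add, hu', hw', Pi.add_apply]⟩
        have : (fun s => φ ((u' + w') s)) = (fun s => φ (u' s)) + fun s => φ (w' s) := by
          funext s
          simp
        rw [this]
        exact W.add_mem hu hw
      smul_mem' := by
        rintro c w ⟨w', hw, hw'⟩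
        refine ⟨PowerSeries.C c • w', ?_, fun s => by
          rw [Pi.smul_apply, smul_eq_mul, map_mul, hw', PowerSeries.constantCoeff_C, Pi.smul_apply,
            smul_eq_mul]⟩
        have : (fun s => φ ((PowerSeries.C c • w') s)) =
            φ (PowerSeries.C c) • fun s => φ (w' s) := by
          funext s
          simp
        rw [this]
        exact W.smul_mem _ hw }
  refine ⟨W0, ?_, ?_⟩
  · by_contra hlt
    push Not at hlt
    obtain ⟨C, hC⟩ := Submodule.exists_isCompl W0
    have hcard : Module.finrank F W0 + Module.finrank F C = Fintype.card S := by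
      rw [Submodule.finrank_add_eq_of_isCompl hC, Module.finrank_fintype_fun_eq_card]
    set d := Module.finrank F C with hd
    let c : Module.Basis (Fin d) F C := Module.finBasis F C
    -- the linear map `b ↦ ∑ b_i c_i mod W`
    let T0 : (Fin d → L) →ₗ[L] (S → L) :=
      { toFun := fun b s => ∑ i, b i * φ (PowerSeries.C ((c i : S → F) s))
        map_add' := by
          intro b b'
          funext s
          simp [add_mul, Finset.sum_add_distrib]
        map_smul' := by
          intro r b
          funext s
          simp [Finset.mul_sum, mul_assoc] }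
    let T : (Fin d → L) →ₗ[L] ((S → L) ⧸ W) := W.mkQ.comp T0
    have hquot : Module.finrank L ((S → L) ⧸ W) + Module.finrank L W = Fintype.card S := by
      rw [Submodule.finrank_quotient_add_finrank, Module.finrank_fintype_fun_eq_card]
    have hT : ¬ Function.Injective T := by
      intro hinj
      have h1 := LinearMap.finrank_le_finrank_of_injective hinj
      rw [Module.finrank_fintype_fun_eq_card, Fintype.card_fin] at h1
      omega
    have hker : ∃ b : Fin d → L, b ≠ 0 ∧ T b = 0 := by
      by_contra hcon
      push Not at hcon
      apply hT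
      rw [injective_iff_map_eq_zero]
      intro b hb
      by_contra hb0
      exact hcon b hb0 hb
    obtain ⟨b, hb0, hb⟩ := hker
    have hbW : (fun s => ∑ i, b i * φ (PowerSeries.C ((c i : S → F) s))) ∈ W := by
      have h1 : W.mkQ (fun s => ∑ i, b i * φ (PowerSeries.C ((c i : S → F) s))) = 0 := hb
      rwa [Submodule.mkQ_apply, Submodule.Quotient.mk_eq_zero] at h1
    -- clear denominators
    obtain ⟨g, hg⟩ := IsLocalization.exist_integer_multiples_of_finite
      (nonZeroDivisors (PowerSeries F)) b
    choose b' hb' using hg
    have hg0 : (g : PowerSeries F) ≠ 0 := nonZeroDivisors.coe_ne_zero g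
    have hb'1 : ∀ i, φ (b' i) = φ g * b i := by
      intro i
      have h1 := hb' i
      rw [Algebra.smul_def] at h1
      exact h1
    have hb'0 : b' ≠ 0 := by
      intro h0
      apply hb0
      funext i
      have h1 := hb'1 i
      rw [h0, Pi.zero_apply, map_zero] at h1
      have h2 : φ (g : PowerSeries F) ≠ 0 := by
        rw [Ne, map_eq_zero_iff φ hφ]
        exact hg0
      exact (mul_eq_zero.mp h1.symm).resolve_left h2
    obtain ⟨n, b'', hb'', i₀, hi₀⟩ := exists_primitive b' hb'0
    have hmem : (fun s => φ (∑ i, b'' i * PowerSeries.C ((c i : S → F) s))) ∈ W := by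
      have hX : φ (PowerSeries.X ^ n) ≠ 0 := by
        rw [Ne, map_eq_zero_iff φ hφ]
        exact pow_ne_zero _ PowerSeries.X_ne_zero
      rw [← Submodule.smul_mem_iff W hX]
      have h1 : φ (PowerSeries.X ^ n) • (fun s => φ (∑ i, b'' i * PowerSeries.C ((c i : S → F) s))) =
          φ (g : PowerSeries F) • fun s => ∑ i, b i * φ (PowerSeries.C ((c i : S → F) s)) := by
        funext s
        simp only [Pi.smul_apply, smul_eq_mul, map_sum, map_mul, Finset.mul_sum]
        refine Finset.sum_congr rfl fun i _ => ?_
        rw [← mul_assoc, ← mul_assoc, ← hb'1 i, hb'' i, map_mul]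
      rw [h1]
      exact W.smul_mem _ hbW
    have hmem0 : (fun s => PowerSeries.constantCoeff
        (∑ i, b'' i * PowerSeries.C ((c i : S → F) s))) ∈ W0 :=
      ⟨fun s => ∑ i, b'' i * PowerSeries.C ((c i : S → F) s), hmem, fun s => rfl⟩
    have hval : (fun s => PowerSeries.constantCoeff
        (∑ i, b'' i * PowerSeries.C ((c i : S → F) s))) =
        ((∑ i, PowerSeries.constantCoeff (b'' i) • c i : C) : S → F) := by
      funext s
      simp [map_sum, map_mul]
    rw [hval] at hmem0
    have hinter : ((∑ i, PowerSeries.constantCoeff (b'' i) • c i : C) : S → F) = 0 := by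
      have : ((∑ i, PowerSeries.constantCoeff (b'' i) • c i : C) : S → F) ∈ W0 ⊓ C :=
        ⟨hmem0, Subtype.property _⟩
      rwa [hC.inf_eq_bot, Submodule.mem_bot] at this
    have hsum : (∑ i, PowerSeries.constantCoeff (b'' i) • c i : C) = 0 := Subtype.ext hinter
    exact hi₀ (Fintype.linearIndependent_iff.mp c.linearIndependent _ hsum i₀)
  · rintro w ⟨w', hw, hw'⟩
    have h1 := hW _ hw
    have h2 : φ (MvPolynomial.aeval (fun s => z s + w' s) f) = 0 := by
      rw [← h1, MvPolynomial.aeval_def, MvPolynomial.eval₂_comp_left]
      congr 1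
      funext s
      simp only [Function.comp_apply, map_add]
      rfl
    have h3 : MvPolynomial.aeval (fun s => z s + w' s) f = (0 : PowerSeries F) := by
      rw [map_eq_zero_iff φ hφ] at h2
      exact h2
    have h4 := congrArg PowerSeries.constantCoeff h3
    rw [map_zero, MvPolynomial.aeval_def, MvPolynomial.eval₂_comp_left] at h4
    rw [← h4, MvPolynomial.aeval_def]
    congr 1
    funext s
    simp only [Function.comp_apply, map_add]
    rw [hw']

/-- The same for `FractionRing`. -/
theorem exists_reduction {K F : Type*} [Field K] [Field F] [Algebra K F]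
    {S : Type*} [Fintype S] (f : MvPolynomial S K) (z : S → PowerSeries F)
    (W : Submodule (FractionRing (PowerSeries F)) (S → FractionRing (PowerSeries F)))
    (hW : ∀ w ∈ W, MvPolynomial.aeval
      (fun s => algebraMap (PowerSeries F) (FractionRing (PowerSeries F)) (z s) + w s) f = 0) :
    ∃ W0 : Submodule F (S → F),
      Module.finrank (FractionRing (PowerSeries F)) W ≤ Module.finrank F W0 ∧
      ∀ w ∈ W0, MvPolynomial.aeval (fun s => PowerSeries.constantCoeff (z s) + w s) f = 0 := by
  apply exists_reduction_aux f z W
  intro w hw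
  have h := hW w hw
  rw [MvPolynomial.aeval_def, IsScalarTower.algebraMap_eq K (PowerSeries F)
    (FractionRing (PowerSeries F))] at h
  exact h

end Pool.Agent.Helper14.DC
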